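import Mathlib

/-!
# Averaging
-/

set_option autoImplicit false

namespace Pool.Agent.E8helper1.TS

/-- **Piece AVG**: averaging over the cosets of a subgroup of finite index. -/
def S_AVG : Prop := ∀ (K : Type) [Field K] [CharZero K] (V : Type) [AddCommGroup V] [Module K V]
  (Γ : Type) [Group Γ] (r : Γ →* Module.End K V) (Δ Δ1 : Subgroup Γ) (_ : Δ1.FiniteIndex)
  (_ : Δ1 ≤ Δ) (U U' : Submodule K V) (_ : ∀ g ∈ Δ, ∀ x ∈ U, r g x ∈ U)
  (_ : ∀ g ∈ Δ1, ∀ x ∈ U', r g x ∈ U') (_ : IsCompl U U'),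
  ∃ U'' : Submodule K V, (∀ g ∈ Δ, ∀ x ∈ U'', r g x ∈ U'') ∧ IsCompl U U''

end Pool.Agent.E8helper1.TS
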