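import Pool.Agent.E8helper1.TS.Strong
import Pool.Agent.E8helper1.TS.Stm2

/-!
# Semisimplicity for all subgroups of finite index
-/

open CategoryTheory AlgebraicGeometry

universe u v

namespace Pool.Agent.E8helper1.TS

open Module
open Pool.Agent.H914 Pool.Agent.H914.VarClass Pool.Agent.H914.VarClass.Obj
  Pool.Agent.H914.WeilCohomology Pool.Agent.H281R3.HT
open Pool.Agent.Y129 (pw pj PowerAction TG tateClasses)
open Pool.Agent.E8helper1.TX

set_option linter.unusedSectionVars false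

variable {k : Type u} [Field k] {𝒱 : VarClass k} {ops : CycleOps 𝒱}
  {W : WeilCohomology.{u, 0} ops} {X Y Z : 𝒱.Obj} {Γ : Type} [Group Γ] {χ : Γ →* W.Kˣ}
  {ρ : ∀ n, Γ →* (W.H (pw X n) ≃ₐ[W.K] W.H (pw X n))} (h : PowerAction W X χ ρ)

/-- The action on the cohomology of `X` as a homomorphism. -/
noncomputable def r0h (ρ : ∀ n, Γ →* (W.H (pw X n) ≃ₐ[W.K] W.H (pw X n))) :
    Γ →* Module.End W.K (W.H X) where
  toFun g := r0 ρ g
  map_one' := by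
    refine LinearMap.ext fun x => ?_
    change ρ 0 1 x = x
    rw [map_one]
    rfl
  map_mul' g g' := by
    refine LinearMap.ext fun x => ?_
    change ρ 0 (g * g') x = ρ 0 g (ρ 0 g' x)
    rw [map_mul]
    rfl

include h in
/-- **The strong form of the Tate conjecture for `X × X` implies semisimplicity.** -/
theorem semisimpleH_of_strong (hSOC : S_SOC) (hAVG : S_AVG) (hP : StrongH W X χ ρ) :
    SemisimpleH ρ := by
  obtain ⟨Δ0, hΔ0, hfix⟩ := exists_fix h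
  intro Δ hΔ i U0 hU0 hst
  obtain ⟨U, hUU⟩ : ∃ U : Submodule W.K (W.H X), U = U0 := ⟨_, rfl⟩
  have hU : U ≤ W.gr X i := by
    rw [hUU]
    exact hU0
  obtain ⟨Δ1, hΔ1⟩ : ∃ Δ1 : Subgroup Γ, Δ1 = Δ ⊓ Δ0 := ⟨_, rfl⟩
  have hf1 : Δ1.FiniteIndex := by
    rw [hΔ1]
    infer_instance
  have hle0 : Δ1 ≤ Δ0 := by
    rw [hΔ1]
    exact inf_le_right
  have hle : Δ1 ≤ Δ := by
    rw [hΔ1]
    exact inf_le_left
  have hU1 : ∀ g ∈ Δ, ∀ x ∈ U, r0 ρ g x ∈ U := by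
    intro g hg x hx
    rw [hUU] at hx ⊢
    exact hst g hg x hx
  obtain ⟨U', hU', hc⟩ := hSOC W.K (W.H X) {f | ∃ g ∈ Δ1, f = r0 ρ g}
    (by
      intro S hS hS'
      obtain ⟨a, ha1, ha2, ha3⟩ := exists_projector h hP hfix hf1 hle0 (S := S)
        (fun g hg => hS _ ⟨g, hg, rfl⟩) (fun f hf => hS' f (by
          rintro _ ⟨g, hg, rfl⟩
          exact hf g hg))
      refine ⟨a, ?_, ha2, ha3⟩
      rintro _ ⟨g, hg, rfl⟩
      exact ha1 g hg)
    U (by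
      rintro _ ⟨g, hg, rfl⟩
      exact hU1 g (hle hg))
  obtain ⟨U2, hU2, hc2⟩ := hAVG W.K (W.H X) Γ (r0h ρ) Δ Δ1 hf1 hle U U' hU1
    (fun g hg => hU' _ ⟨g, hg, rfl⟩) hc
  have k1 : U ⊓ (U2 ⊓ W.gr X i) = ⊥ := by
    rw [eq_bot_iff, ← hc2.inf_eq_bot]
    exact inf_le_inf_left _ inf_le_left
  have k2 : U ⊔ U2 ⊓ W.gr X i = W.gr X i := by
    rw [← sup_inf_assoc_of_le U2 hU, hc2.sup_eq_top, top_inf_eq]
  rw [hUU] at k1 k2
  refine ⟨(U2 ⊓ W.gr X i : Submodule W.K (W.H X)), inf_le_right, fun g hg u hu => ?_, k1, k2⟩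
  exact ⟨hU2 g hg u hu.1, r0_gr h g hu.2⟩

end Pool.Agent.E8helper1.TS
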