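import Pool.Agent.E8helper1.TS.Stm2

/-!
# Averaging over cosets
-/

set_option autoImplicit false

namespace Pool.Agent.E8helper1.TS

open Module

theorem t_AVG : S_AVG := by
  intro K _ _ V _ _ Γ _ r Δ Δ1 hf hle U U' hU hU' hc
  classical
  obtain ⟨p, p1, p2, p3⟩ : ∃ p : Module.End K V, (∀ x, p x ∈ U) ∧ (∀ x ∈ U, p x = x) ∧
      (∀ x ∈ U', p x = 0) := by
    refine ⟨U.subtype ∘ₗ U.projectionOnto U' hc, fun x => ?_, fun x hx => ?_, fun x hx => ?_⟩
    · exact (U.projectionOnto U' hc x).2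
    · have := Submodule.projectionOnto_apply_left hc ⟨x, hx⟩
      simpa using congrArg Subtype.val this
    · have := (Submodule.projectionOnto_apply_eq_zero_iff hc (x := x)).2 hx
      simpa using congrArg Subtype.val this
  have p4 : ∀ g ∈ Δ1, ∀ x, p (r g x) = r g (p x) := by
    intro g hg x
    obtain ⟨u, hu, v, hv, rfl⟩ := Submodule.mem_sup.1
      (show x ∈ U ⊔ U' by rw [hc.sup_eq_top]; trivial)
    rw [map_add, map_add, map_add, p2 _ (hU g (hle hg) u hu), p3 _ (hU' g hg v hv), p2 _ hu,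
      p3 _ hv, add_zero, add_zero]
  have r1 : ∀ (g : Γ) (x : V), r g (r g⁻¹ x) = x := by
    intro g x
    have : (r g * r g⁻¹) x = x := by
      rw [← map_mul, mul_inv_cancel, map_one]
      rfl
    exact this
  have r2 : ∀ (g : Γ) (x : V), r g⁻¹ (r g x) = x := by
    intro g x
    have : (r g⁻¹ * r g) x = x := by
      rw [← map_mul, inv_mul_cancel, map_one]
      rfl
    exact this
  have r3 : ∀ (g g' : Γ) (x : V), r (g * g') x = r g (r g' x) := by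
    intro g g' x
    rw [map_mul]
    rfl
  obtain ⟨S, hS⟩ : ∃ S : Subgroup Δ, S = Δ1.subgroupOf Δ := ⟨_, rfl⟩
  haveI hSf : S.FiniteIndex := by
    rw [hS]
    infer_instance
  haveI : Fintype (Δ ⧸ S) := Subgroup.fintypeQuotientOfFiniteIndex
  obtain ⟨F, hF⟩ : ∃ F : Δ → Module.End K V, ∀ g x, F g x = r g (p (r (g : Γ)⁻¹ x)) :=
    ⟨fun g => r g * p * r (g : Γ)⁻¹, fun g x => rfl⟩
  have F1 : ∀ g d : Δ, d ∈ S → F (g * d) = F g := by
    intro g d hd
    have hd1 : (d : Γ) ∈ Δ1 := by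
      rw [hS] at hd
      exact hd
    refine LinearMap.ext fun x => ?_
    rw [hF, hF]
    have e1 : ((g * d : Δ) : Γ) = (g : Γ) * (d : Γ) := rfl
    rw [e1, mul_inv_rev, r3, r3, p4 _ (Δ1.inv_mem hd1), r1]
  obtain ⟨F', hF'⟩ : ∃ F' : Δ ⧸ S → Module.End K V, ∀ g : Δ, F' (g : Δ ⧸ S) = F g := by
    refine ⟨fun q => F q.out, fun g => ?_⟩
    obtain ⟨d, hd⟩ := QuotientGroup.mk_out_eq_mul S g
    change F (Quotient.out (g : Δ ⧸ S)) = F g
    rw [hd]
    exact F1 g _ d.2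
  obtain ⟨n, hn⟩ : ∃ n : K, n = (Fintype.card (Δ ⧸ S) : K) := ⟨_, rfl⟩
  have hn0 : n ≠ 0 := by
    rw [hn]
    exact_mod_cast Fintype.card_ne_zero
  obtain ⟨P, hP⟩ : ∃ P : Module.End K V, P = n⁻¹ • ∑ q : Δ ⧸ S, F' q := ⟨_, rfl⟩
  have hPx : ∀ x, P x = n⁻¹ • ∑ q : Δ ⧸ S, F' q x := by
    intro x
    rw [hP, LinearMap.smul_apply, LinearMap.sum_apply]
  have P1 : ∀ x, P x ∈ U := by
    intro x
    rw [hPx]
    refine U.smul_mem _ (U.sum_mem fun q _ => ?_)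
    obtain ⟨g, rfl⟩ := QuotientGroup.mk_surjective q
    rw [hF', hF]
    exact hU _ g.2 _ (p1 _)
  have P2 : ∀ x ∈ U, P x = x := by
    intro x hx
    rw [hPx]
    have : ∀ q : Δ ⧸ S, F' q x = x := by
      intro q
      obtain ⟨g, rfl⟩ := QuotientGroup.mk_surjective q
      rw [hF', hF, p2 _ (hU _ (Δ.inv_mem g.2) _ hx), r1]
    rw [Finset.sum_congr rfl fun q _ => this q, Finset.sum_const, Finset.card_univ,
      ← Nat.cast_smul_eq_nsmul K, ← hn, smul_smul, inv_mul_cancel₀ hn0, one_smul]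
  have P3 : ∀ g ∈ Δ, ∀ x, P (r g x) = r g (P x) := by
    intro g hg x
    rw [hPx, hPx, map_smul, map_sum]
    congr 1
    rw [← Equiv.sum_comp (MulAction.toPerm (⟨g, hg⟩ : Δ) : Equiv.Perm (Δ ⧸ S))]
    refine Finset.sum_congr rfl fun q _ => ?_
    obtain ⟨d, rfl⟩ := QuotientGroup.mk_surjective q
    have e1 : (MulAction.toPerm (⟨g, hg⟩ : Δ) : Equiv.Perm (Δ ⧸ S)) (d : Δ ⧸ S) =
        ((⟨g, hg⟩ * d : Δ) : Δ ⧸ S) := rfl
    rw [e1, hF', hF', hF, hF]
    have e2 : ((⟨g, hg⟩ * d : Δ) : Γ) = g * (d : Γ) := rfl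
    rw [e2, mul_inv_rev, r3, r3, r2]
  refine ⟨LinearMap.ker P, fun g hg x hx => ?_, ?_⟩
  · rw [LinearMap.mem_ker] at hx ⊢
    rw [P3 g hg, hx, map_zero]
  · refine ⟨?_, ?_⟩
    · rw [Submodule.disjoint_def]
      intro x hx hx'
      rw [LinearMap.mem_ker] at hx'
      rw [← P2 x hx, hx']
    · rw [codisjoint_iff, eq_top_iff]
      intro x _
      rw [Submodule.mem_sup]
      refine ⟨P x, P1 x, x - P x, ?_, by abel⟩
      rw [LinearMap.mem_ker, map_sub, P2 _ (P1 x), sub_self]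

end Pool.Agent.E8helper1.TS
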