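import Mathlib

/-!
# Semisimplicity from projectors onto the fully invariant subspaces
-/

set_option autoImplicit false

namespace Pool.Agent.E8helper1.TS

/-- **Piece SOC**: let `𝓖` be a set of endomorphisms of the finite-dimensional space `V`. If for every
subspace `S` which is stable under `𝓖` and under the commutant of `𝓖` there is a projector onto `S` which
commutes with `𝓖`, then every `𝓖`-stable subspace has a `𝓖`-stable complement. (Take for `S` the socle.) -/
def S_SOC : Prop := ∀ (K : Type) [Field K] (V : Type) [AddCommGroup V] [Module K V]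
  [Module.Finite K V] (𝓖 : Set (Module.End K V))
  (_ : ∀ S : Submodule K V, (∀ g ∈ 𝓖, ∀ x ∈ S, g x ∈ S) →
    (∀ f : Module.End K V, (∀ g ∈ 𝓖, f * g = g * f) → ∀ x ∈ S, f x ∈ S) →
    ∃ a : Module.End K V, (∀ g ∈ 𝓖, a * g = g * a) ∧ (∀ x ∈ S, a x = x) ∧ ∀ x, a x ∈ S)
  (U : Submodule K V) (_ : ∀ g ∈ 𝓖, ∀ x ∈ U, g x ∈ U),
  ∃ U' : Submodule K V, (∀ g ∈ 𝓖, ∀ x ∈ U', g x ∈ U') ∧ IsCompl U U'

end Pool.Agent.E8helper1.TS
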