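import Pool.Agent.E8helper1.TW.GeoQ
import Pool.Agent.E8helper1.TS.Stm

/-!
# The strong form of the Tate conjecture for `X × X` implies semisimplicity
-/

open CategoryTheory AlgebraicGeometry

universe u v

namespace Pool.Agent.E8helper1.TS

open Module
open Pool.Agent.H914 Pool.Agent.H914.VarClass Pool.Agent.H914.VarClass.Obj
  Pool.Agent.H914.WeilCohomology Pool.Agent.H281R3.HT
open Pool.Agent.Y133.Half (Sys PH corrL swap_swap)
open Pool.Agent.Y129 (pw pj PowerAction TG tateClasses)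
open Pool.Agent.TH125.Gal (IsGaloisAct Intertwines TateAct)
open Pool.Agent.E8helper1.TX

set_option linter.unusedSectionVars false

variable {k : Type u} [Field k] {𝒱 : VarClass k} {ops : CycleOps 𝒱}
  {W : WeilCohomology.{u, 0} ops} {X Y : 𝒱.Obj} {Γ : Type} [Group Γ] {χ : Γ →* W.Kˣ}
  {ρ : ∀ n, Γ →* (W.H (pw X n) ≃ₐ[W.K] W.H (pw X n))}

section degree

/-- The degree of a correspondence. -/
theorem corr_mem' {j i : ℕ} {c : W.H (X.prod X)} (hc : c ∈ W.gr (X.prod X) j) {x : W.H X}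
    (hx : x ∈ W.gr X i) : W.corr (X := X) (Y := X) c x ∈
      grZ (W.gr X) ((i : ℤ) + j - 2 * X.dim) := by
  have h1 := W.push_mem (snd X X) (W.mul_mem hc (W.map_mem (fst X X) hx))
  rw [corr_apply]
  have e : ((j + i : ℕ) : ℤ) + 2 * ((X.dim : ℤ) - (X.prod X).dim) = (i : ℤ) + j - 2 * X.dim := by
    rw [dim_prod]
    push_cast
    ring
  rwa [e] at h1

/-- Correspondences of degree zero. -/
theorem corr_gr {i : ℕ} {c : W.H (X.prod X)} (hc : c ∈ W.gr (X.prod X) (2 * X.dim)) {x : W.H X}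
    (hx : x ∈ W.gr X i) : W.corr (X := X) (Y := X) c x ∈ W.gr X i := by
  have h1 := corr_mem' hc hx
  have e : (i : ℤ) + ((2 * X.dim : ℕ) : ℤ) - 2 * X.dim = i := by
    push_cast
    ring
  rwa [e, grZ_natCast] at h1

theorem prj_grZ {i : ℕ} {m : ℤ} (hm : m ≠ i) {y : W.H X} (hy : y ∈ grZ (W.gr X) m) :
    prj W X i y = 0 := by
  by_cases h0 : 0 ≤ m
  · lift m to ℕ using h0
    rw [grZ_natCast] at hy
    exact H914.proj_ne _ hy fun h => hm (by exact_mod_cast h)
  · rw [grZ_of_neg (by omega), Submodule.mem_bot] at hy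
    rw [hy, map_zero]

/-- The component of degree zero of a correspondence. -/
theorem corr_prj (c : W.H (X.prod X)) {i : ℕ} {x : W.H X} (hx : x ∈ W.gr X i) :
    W.corr (X := X) (Y := X) (prj W (X.prod X) (2 * X.dim) c) x =
      prj W X i (W.corr (X := X) (Y := X) c x) := by
  classical
  have h1 : W.corr (X := X) (Y := X) c x = ∑ j ∈ Finset.range (2 * (X.prod X).dim + 1),
      W.corr (X := X) (Y := X) (prj W (X.prod X) j c) x := by
    have h2 : corrL W X X c = ∑ j ∈ Finset.range (2 * (X.prod X).dim + 1),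
        corrL W X X (prj W (X.prod X) j c) := by
      rw [← map_sum, ← sum_prj (X.prod X) c]
    have h3 := LinearMap.congr_fun h2 x
    rw [LinearMap.sum_apply] at h3
    exact h3
  rw [h1, map_sum, Finset.sum_eq_single (2 * X.dim)]
  · exact (H914.proj_same _ (corr_gr (H914.proj_mem _ _ _) hx)).symm
  · intro j _ hj
    refine prj_grZ ?_ (corr_mem' (H914.proj_mem _ _ _) hx)
    intro h
    apply hj
    omega
  · intro h
    exfalso
    apply h
    rw [Finset.mem_range, dim_prod]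
    omega

end degree

section galois

theorem corr_equiv {r1 : W.H (X.prod X) ≃ₐ[W.K] W.H (X.prod X)} {r0 : W.H X ≃ₐ[W.K] W.H X}
    {c0 : W.K} (hf : ∀ y, r1 (W.map (fst X X) y) = W.map (fst X X) (r0 y))
    (hs : ∀ y, r1 (W.map (snd X X) y) = W.map (snd X X) (r0 y))
    (h1 : ∀ z, W.tr (X.prod X) (r1 z) = c0 ^ (X.dim + X.dim) * W.tr (X.prod X) z)
    (h0 : ∀ z, W.tr X (r0 z) = c0 ^ X.dim * W.tr X z) (c : W.H (X.prod X)) (x : W.H X) :
    W.corr (X := X) (Y := X) (r1 c) (r0 x) = c0 ^ X.dim • r0 (W.corr (X := X) (Y := X) c x) := by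
  rw [corr_apply, corr_apply]
  apply W.tr_ext
  intro y'
  obtain ⟨y, rfl⟩ : ∃ y, y' = r0 y := ⟨r0.symm y', (r0.apply_symm_apply y').symm⟩
  rw [W.tr_push, smul_mul_assoc, map_smul, ← hf, ← hs, ← map_mul, ← map_mul, ← map_mul, h1, h0,
    W.tr_push, pow_add, smul_eq_mul, mul_assoc]

variable (h : PowerAction W X χ ρ)

include h in
/-- The action on correspondences. -/
theorem corr_act (g : Γ) (c : W.H (X.prod X)) (x : W.H X) :
    W.corr (X := X) (Y := X) (show W.H (X.prod X) from ρ 1 g c) (show W.H X from ρ 0 g x) =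
      (χ g : W.K) ^ X.dim • (show W.H X from ρ 0 g (W.corr (X := X) (Y := X) c x)) := by
  have h2 : Intertwines (A := W.H (pw X 0)) (B := W.H (pw X 1))
      (W.map (snd X (pw X 0))) (ρ 0) (ρ 1) :=
    h.equiv (m := 0) (n := 1) (snd X (pw X 0)) (fun i => i.succ) fun i => rfl
  exact corr_equiv (r1 := (ρ 1 g : W.H (pw X 1) ≃ₐ[W.K] W.H (pw X 1)))
    (r0 := (ρ 0 g : W.H (pw X 0) ≃ₐ[W.K] W.H (pw X 0))) (c0 := (χ g : W.K))
    (fun y => h.proj 1 0 g y) (fun y => h2 g y) (fun z => (h.galois 1).tr_act g z)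
    (fun z => (h.galois 0).tr_act g z) c x

end galois

end Pool.Agent.E8helper1.TS
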