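import Pool.Agent.E8helper1.TS.Geo

/-!
# The strong form of the Tate conjecture for `X × X` implies semisimplicity: proof
-/

open CategoryTheory AlgebraicGeometry

universe u v

namespace Pool.Agent.E8helper1.TS

open Module
open Pool.Agent.H914 Pool.Agent.H914.VarClass Pool.Agent.H914.VarClass.Obj
  Pool.Agent.H914.WeilCohomology Pool.Agent.H281R3.HT
open Pool.Agent.Y133.Half (Sys PH corrL swap_swap trace_corr_corr)
open Pool.Agent.Y129 (pw pj PowerAction TG tateClasses)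
open Pool.Agent.TH125.Gal (IsGaloisAct Intertwines TateAct)
open Pool.Agent.E8helper1.TX

set_option linter.unusedSectionVars false

variable {k : Type u} [Field k] {𝒱 : VarClass k} {ops : CycleOps 𝒱}
  {W : WeilCohomology.{u, 0} ops} {X Y Z : 𝒱.Obj} {Γ : Type} [Group Γ] {χ : Γ →* W.Kˣ}
  {ρ : ∀ n, Γ →* (W.H (pw X n) ≃ₐ[W.K] W.H (pw X n))}

/-- The space spanned by the classes of cycles of codimension `j`. -/
def algj (W : WeilCohomology.{u, 0} ops) (Z : 𝒱.Obj) (j : ℕ) : Submodule W.K (W.H Z) :=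
  Submodule.span W.K (algClasses W Z j)

/-- The numerically trivial elements of the space spanned by the classes of cycles of codimension
`j`. -/
def numTriv (W : WeilCohomology.{u, 0} ops) (Z : 𝒱.Obj) (j : ℕ) : Submodule W.K (W.H Z) where
  carrier := {c | c ∈ algj W Z j ∧ ∀ c' ∈ algClasses W Z (Z.dim - j), W.tr Z (c * c') = 0}
  zero_mem' := ⟨zero_mem _, fun c' _ => by rw [zero_mul, map_zero]⟩
  add_mem' := fun {a b} ha hb => ⟨add_mem ha.1 hb.1, fun c' hc' => by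
    rw [add_mul, map_add, ha.2 c' hc', hb.2 c' hc', add_zero]⟩
  smul_mem' := fun r a ha => ⟨Submodule.smul_mem _ _ ha.1, fun c' hc' => by
    rw [smul_mul_assoc, map_smul, ha.2 c' hc', smul_zero]⟩

/-- The action on the cohomology of `X` as linear maps. -/
noncomputable def r0 (ρ : ∀ n, Γ →* (W.H (pw X n) ≃ₐ[W.K] W.H (pw X n))) (g : Γ) :
    Module.End W.K (W.H X) := (ρ 0 g : W.H (pw X 0) ≃ₐ[W.K] W.H (pw X 0)).toLinearMap

/-- The action on the cohomology of `X × X` as linear maps. -/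
noncomputable def r1 (ρ : ∀ n, Γ →* (W.H (pw X n) ≃ₐ[W.K] W.H (pw X n))) (g : Γ) :
    Module.End W.K (W.H (X.prod X)) := (ρ 1 g : W.H (pw X 1) ≃ₐ[W.K] W.H (pw X 1)).toLinearMap

/-- The operator given by a class. -/
noncomputable abbrev op (c : W.H (X.prod X)) : Module.End W.K (W.H X) := W.corr (X := X) (Y := X) c

theorem op_add (c c' : W.H (X.prod X)) (x : W.H X) : op (c + c') x = op c x + op c' x :=
  LinearMap.congr_fun (W.corr_add c c') x

theorem op_smul (a : W.K) (c : W.H (X.prod X)) (x : W.H X) : op (a • c) x = a • op c x :=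
  LinearMap.congr_fun (W.corr_smul a c) x

theorem op_zero (x : W.H X) : op (0 : W.H (X.prod X)) x = 0 :=
  LinearMap.congr_fun (map_zero (corrL W X X)) x

theorem op_sub (c c' : W.H (X.prod X)) (x : W.H X) : op (c - c') x = op c x - op c' x :=
  LinearMap.congr_fun (map_sub (corrL W X X) c c') x

/-- **The strong form of the Tate conjecture for `X × X`**, in the middle degree. -/
def StrongH (W : WeilCohomology.{u, 0} ops) (X : 𝒱.Obj) (χ : Γ →* W.Kˣ)
    (ρ : ∀ n, Γ →* (W.H (pw X n) ≃ₐ[W.K] W.H (pw X n))) : Prop :=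
  ∀ Δ : Subgroup Γ, Δ.FiniteIndex → ∀ E F : Submodule W.K (W.H (X.prod X)), E ≤ F →
    F ≤ W.gr (X.prod X) (2 * X.dim) → (∀ g ∈ Δ, ∀ x ∈ E, r1 ρ g x ∈ E) →
    (∀ g ∈ Δ, ∀ x ∈ F, r1 ρ g x - (χ g : W.K) ^ X.dim • x ∈ E) →
    finrank W.K F + finrank W.K (numTriv W (X.prod X) X.dim) ≤
      finrank W.K E + finrank W.K (algj W (X.prod X) X.dim)

section main

variable (h : PowerAction W X χ ρ)

include h in
theorem op_act (g : Γ) (c : W.H (X.prod X)) (x : W.H X) :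
    op (r1 ρ g c) (r0 ρ g x) = (χ g : W.K) ^ X.dim • r0 ρ g (op c x) := corr_act h g c x

theorem r0_inv (g : Γ) (x : W.H X) : r0 ρ g (r0 ρ g⁻¹ x) = x := by
  have h1 : ρ 0 g (ρ 0 g⁻¹ x) = ρ 0 (g * g⁻¹) x := by
    rw [map_mul]
    rfl
  have h2 : ρ 0 (g * g⁻¹) x = x := by
    rw [mul_inv_cancel, map_one]
    rfl
  exact h1.trans h2

include h in
/-- Algebraic correspondences commute with a subgroup of finite index. -/
theorem exists_fix : ∃ Δ0 : Subgroup Γ, Δ0.FiniteIndex ∧ ∀ g ∈ Δ0, ∀ c ∈ algj W (X.prod X) X.dim,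
    r1 ρ g c = (χ g : W.K) ^ X.dim • c := by
  classical
  obtain ⟨b, hb, hspan, hlin⟩ := exists_linearIndependent W.K (algClasses W (X.prod X) X.dim)
  have hfin : Finite b := hlin.setFinite
  have hfix : ∀ c : b, ∃ Δ : Subgroup Γ, Δ.FiniteIndex ∧ ∀ g ∈ Δ,
      r1 ρ g (c : W.H (X.prod X)) = (χ g : W.K) ^ X.dim • (c : W.H (X.prod X)) := fun c =>
    (h.galois 1).cl_fix X.dim (c : W.H (X.prod X)) (hb c.2)
  choose D hD1 hD2 using hfix
  refine ⟨⨅ c, D c, Subgroup.finiteIndex_iInf hD1, fun g hg c hc => ?_⟩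
  rw [algj, ← hspan] at hc
  induction hc using Submodule.span_induction with
  | mem c hc => exact hD2 ⟨c, hc⟩ g ((Subgroup.mem_iInf.1 hg) ⟨c, hc⟩)
  | zero => rw [map_zero, smul_zero]
  | add c c' _ _ h1 h2 => rw [map_add, h1, h2, smul_add]
  | smul a c _ h1 => rw [map_smul, h1, smul_comm]

theorem algj_gr {j : ℕ} {c : W.H Z} (hc : c ∈ algj W Z j) : c ∈ W.gr Z (2 * j) := by
  refine Submodule.span_le.2 ?_ hc
  rintro _ ⟨z, hz, rfl⟩
  exact W.cl_mem hz

/-- The correspondences with values in `S` which vanish on `S`. -/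
def spE (S : Submodule W.K (W.H X)) : Submodule W.K (W.H (X.prod X)) where
  carrier := {c | c ∈ W.gr (X.prod X) (2 * X.dim) ∧ (∀ x, op c x ∈ S) ∧ ∀ x ∈ S, op c x = 0}
  zero_mem' := ⟨zero_mem _, fun x => by rw [op_zero]; exact zero_mem _, fun x _ => op_zero x⟩
  add_mem' := fun {a b} ha hb => ⟨add_mem ha.1 hb.1,
    fun x => by rw [op_add]; exact add_mem (ha.2.1 x) (hb.2.1 x),
    fun x hx => by rw [op_add, ha.2.2 x hx, hb.2.2 x hx, add_zero]⟩
  smul_mem' := fun r a ha => ⟨Submodule.smul_mem _ _ ha.1,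
    fun x => by rw [op_smul]; exact Submodule.smul_mem _ _ (ha.2.1 x),
    fun x hx => by rw [op_smul, ha.2.2 x hx, smul_zero]⟩

/-- The correspondences which preserve `S` and which commute with `Δ` on `S` and modulo `S`. -/
def spF (ρ : ∀ n, Γ →* (W.H (pw X n) ≃ₐ[W.K] W.H (pw X n))) (Δ : Subgroup Γ)
    (S : Submodule W.K (W.H X)) : Submodule W.K (W.H (X.prod X)) where
  carrier := {c | c ∈ W.gr (X.prod X) (2 * X.dim) ∧ (∀ x ∈ S, op c x ∈ S) ∧
    (∀ g ∈ Δ, ∀ x ∈ S, op c (r0 ρ g x) = r0 ρ g (op c x)) ∧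
    ∀ g ∈ Δ, ∀ x, op c (r0 ρ g x) - r0 ρ g (op c x) ∈ S}
  zero_mem' := ⟨zero_mem _, fun x _ => by rw [op_zero]; exact zero_mem _,
    fun g _ x _ => by rw [op_zero, op_zero, map_zero],
    fun g _ x => by rw [op_zero, op_zero, map_zero, sub_zero]; exact zero_mem _⟩
  add_mem' := fun {a b} ha hb => ⟨add_mem ha.1 hb.1,
    fun x hx => by rw [op_add]; exact add_mem (ha.2.1 x hx) (hb.2.1 x hx),
    fun g hg x hx => by
      rw [op_add, op_add, map_add, ha.2.2.1 g hg x hx, hb.2.2.1 g hg x hx],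
    fun g hg x => by
      rw [op_add, op_add, map_add, add_sub_add_comm]
      exact add_mem (ha.2.2.2 g hg x) (hb.2.2.2 g hg x)⟩
  smul_mem' := fun r a ha => ⟨Submodule.smul_mem _ _ ha.1,
    fun x hx => by rw [op_smul]; exact Submodule.smul_mem _ _ (ha.2.1 x hx),
    fun g hg x hx => by rw [op_smul, op_smul, map_smul, ha.2.2.1 g hg x hx],
    fun g hg x => by
      rw [op_smul, op_smul, map_smul, ← smul_sub]
      exact Submodule.smul_mem _ _ (ha.2.2.2 g hg x)⟩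

include h in
/-- The graded pieces are stable. -/
theorem r0_gr (g : Γ) {i : ℕ} {x : W.H X} (hx : x ∈ W.gr X i) : r0 ρ g x ∈ W.gr X i :=
  (h.galois 0).gr_mem g i x hx

include h in
theorem prj_r0 (g : Γ) (i : ℕ) (x : W.H X) : prj W X i (r0 ρ g x) = r0 ρ g (prj W X i x) :=
  prj_comm (X := X) (n := 0) (f := r0 ρ g) (fun _ _ hx => r0_gr h g hx) i x

include h in
theorem par_r0 (g : Γ) (x : W.H X) :
    H914.par (W.isInternal X) (r0 ρ g x) = r0 ρ g (H914.par (W.isInternal X) x) := by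
  have h0 : H914.par (W.isInternal X) ∘ₗ r0 ρ g = r0 ρ g ∘ₗ H914.par (W.isInternal X) := by
    refine gr_ext (W.isInternal X) fun i x hx => ?_
    rw [LinearMap.comp_apply, LinearMap.comp_apply, PH.par (PH.of (r0_gr h g hx)),
      PH.par (PH.of hx), map_smul]
  exact LinearMap.congr_fun h0 x

include h in
/-- **The projector onto the fully invariant subspaces.** -/
theorem exists_projector (hP : StrongH W X χ ρ) {Δ0 : Subgroup Γ}
    (hfix : ∀ g ∈ Δ0, ∀ c ∈ algj W (X.prod X) X.dim, r1 ρ g c = (χ g : W.K) ^ X.dim • c)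
    {Δ : Subgroup Γ} (hΔ : Δ.FiniteIndex) (hle : Δ ≤ Δ0) {S : Submodule W.K (W.H X)}
    (hS : ∀ g ∈ Δ, ∀ x ∈ S, r0 ρ g x ∈ S)
    (hS' : ∀ f : Module.End W.K (W.H X), (∀ g ∈ Δ, f * r0 ρ g = r0 ρ g * f) → ∀ x ∈ S, f x ∈ S) :
    ∃ a : Module.End W.K (W.H X), (∀ g ∈ Δ, a * r0 ρ g = r0 ρ g * a) ∧ (∀ x ∈ S, a x = x) ∧
      ∀ x, a x ∈ S := by
  classical
  have hSi : ∀ g ∈ Δ, ∀ x ∈ S, r0 ρ g⁻¹ x ∈ S := fun g hg x hx => hS _ (Δ.inv_mem hg) x hx
  -- algebraic correspondences commute with `Δ`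
  have hcomm : ∀ c ∈ algj W (X.prod X) X.dim, ∀ g ∈ Δ, op c * r0 ρ g = r0 ρ g * op c := by
    intro c hc g hg
    refine LinearMap.ext fun x => ?_
    have h1 := op_act h g c x
    rw [hfix g (hle hg) c hc, op_smul] at h1
    exact smul_right_injective _ (pow_ne_zero _ (Units.ne_zero (χ g))) h1
  have hSprj : ∀ i, ∀ x ∈ S, prj W X i x ∈ S := fun i x hx =>
    hS' (prj W X i) (fun g _ => LinearMap.ext fun x => prj_r0 h g i x) x hx
  have hSpar : ∀ x ∈ S, H914.par (W.isInternal X) x ∈ S := fun x hx =>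
    hS' (H914.par (W.isInternal X)) (fun g _ => LinearMap.ext fun x => par_r0 h g x) x hx
  have hSalg : ∀ c ∈ algj W (X.prod X) X.dim, ∀ x ∈ S, op c x ∈ S := fun c hc =>
    hS' (op c) (hcomm c hc)
  -- the inclusions
  have hEF : spE S ≤ spF ρ Δ S := by
    rintro c ⟨hc1, hc2, hc3⟩
    refine ⟨hc1, fun x _ => hc2 x, fun g hg x hx => ?_, fun g hg x => ?_⟩
    · rw [hc3 x hx, hc3 _ (hS g hg x hx), map_zero]
    · exact sub_mem (hc2 _) (hS g hg _ (hc2 _))
  have hAF : algj W (X.prod X) X.dim ≤ spF ρ Δ S := by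
    intro c hc
    have h1 : ∀ g ∈ Δ, ∀ x, op c (r0 ρ g x) = r0 ρ g (op c x) := fun g hg x =>
      LinearMap.congr_fun (hcomm c hc g hg) x
    refine ⟨algj_gr hc, hSalg c hc, fun g hg x _ => h1 g hg x, fun g hg x => ?_⟩
    rw [h1 g hg x, sub_self]
    exact zero_mem _
  have hstr := hP Δ hΔ (spE S) (spF ρ Δ S) hEF (fun c hc => hc.1)
    (by
      rintro g hg c ⟨hc1, hc2, hc3⟩
      have hgr : r1 ρ g c ∈ W.gr (X.prod X) (2 * X.dim) := (h.galois 1).gr_mem g _ c hc1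
      refine ⟨hgr, fun y => ?_, fun y hy => ?_⟩
      · rw [← r0_inv (ρ := ρ) g y, op_act h]
        exact Submodule.smul_mem _ _ (hS g hg _ (hc2 _))
      · rw [← r0_inv (ρ := ρ) g y, op_act h, hc3 _ (hSi g hg y hy), map_zero, smul_zero])
    (by
      rintro g hg c ⟨hc1, hc2, hc3, hc4⟩
      have hgr : r1 ρ g c ∈ W.gr (X.prod X) (2 * X.dim) := (h.galois 1).gr_mem g _ c hc1
      have key : ∀ y, op (r1 ρ g c - (χ g : W.K) ^ X.dim • c) (r0 ρ g y) =
          (χ g : W.K) ^ X.dim • -(op c (r0 ρ g y) - r0 ρ g (op c y)) := by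
        intro y
        rw [op_sub, op_act h, op_smul, neg_sub, smul_sub]
      refine ⟨sub_mem hgr (Submodule.smul_mem _ _ hc1), fun y => ?_, fun y hy => ?_⟩
      · rw [← r0_inv (ρ := ρ) g y, key]
        exact Submodule.smul_mem _ _ (neg_mem (hc4 g hg _))
      · rw [← r0_inv (ρ := ρ) g y, key, hc3 g hg _ (hSi g hg y hy), sub_self, neg_zero,
          smul_zero])
  -- the intersection is numerically trivial
  have hnum : algj W (X.prod X) X.dim ⊓ spE S ≤ numTriv W (X.prod X) X.dim := by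
    rintro a ⟨ha, -, ha2, ha3⟩
    refine ⟨ha, fun b hb => ?_⟩
    obtain ⟨b', hb', hbb⟩ : ∃ b' ∈ algj W (X.prod X) X.dim, W.map (swap X X) b' = b := by
      obtain ⟨z, hz, rfl⟩ := hb
      have hd : (X.prod X).dim - X.dim = X.dim := by
        rw [dim_prod]
        omega
      rw [hd] at hz
      refine ⟨W.map (swap X X) (W.cl _ z), Submodule.subset_span
        ⟨ops.pull (swap X X) z, ops.pull_mem _ hz, W.cl_pull _ _⟩, swap_swap _⟩
    have h1 := trace_corr_corr (W := W) (N := X) (M := X) a b'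
    rw [hbb] at h1
    rw [← h1]
    have h2 : IsNilpotent (H914.par (W.isInternal X) ∘ₗ op a ∘ₗ op b' :
        Module.End W.K (W.H X)) := by
      refine ⟨2, LinearMap.ext fun x => ?_⟩
      rw [pow_two, Module.End.mul_apply]
      change H914.par (W.isInternal X) (op a (op b'
        (H914.par (W.isInternal X) (op a (op b' x))))) = 0
      rw [ha3 _ (hSalg b' hb' _ (hSpar _ (ha2 _))), map_zero]
    exact (LinearMap.isNilpotent_trace_of_isNilpotent h2).eq_zero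
  -- dimensions
  have hsum : algj W (X.prod X) X.dim ⊔ spE S = spF ρ Δ S := by
    refine Submodule.eq_of_le_of_finrank_le (sup_le hAF hEF) ?_
    have h1 := Submodule.finrank_sup_add_finrank_inf_eq (algj W (X.prod X) X.dim) (spE S)
    have h2 := Submodule.finrank_mono hnum
    omega
  -- the projection
  obtain ⟨p, hp⟩ := S.subtype.exists_leftInverse_of_injective (Submodule.ker_subtype S)
  have hp1 : ∀ x ∈ S, (p x : W.H X) = x := fun x hx =>
    congrArg Subtype.val (LinearMap.congr_fun hp ⟨x, hx⟩)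
  obtain ⟨c, hc⟩ := (corr_bijective (W := W) (X := X)).2 (S.subtype ∘ₗ p)
  have hc' : ∀ x, op c x = (p x : W.H X) := fun x => LinearMap.congr_fun hc x
  obtain ⟨c0, hc0⟩ : ∃ c0, c0 = prj W (X.prod X) (2 * X.dim) c := ⟨_, rfl⟩
  have hc1 : ∀ x, op c0 x = ∑ i ∈ Finset.range (2 * X.dim + 1), prj W X i (p (prj W X i x)) := by
    intro x
    conv_lhs => rw [sum_prj X x, map_sum]
    refine Finset.sum_congr rfl fun i _ => ?_
    rw [hc0, corr_prj c (H914.proj_mem _ _ _)]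
    congr 1
    exact hc' _
  have hc2 : ∀ x, op c0 x ∈ S := fun x => by
    rw [hc1]
    exact Submodule.sum_mem _ fun i _ => hSprj i _ (p _).2
  have hc3 : ∀ x ∈ S, op c0 x = x := fun x hx => by
    rw [hc1]
    conv_rhs => rw [sum_prj X x]
    refine Finset.sum_congr rfl fun i _ => ?_
    rw [hp1 _ (hSprj i x hx), H914.proj_same _ (H914.proj_mem _ _ _)]
  have hcF : c0 ∈ spF ρ Δ S := by
    refine ⟨by rw [hc0]; exact H914.proj_mem _ _ _, fun x _ => hc2 x, fun g hg x hx => ?_,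
      fun g hg x => sub_mem (hc2 _) (hS g hg _ (hc2 _))⟩
    rw [hc3 x hx, hc3 _ (hS g hg x hx)]
  rw [← hsum] at hcF
  obtain ⟨a, ha, e, he, hae⟩ := Submodule.mem_sup.1 hcF
  have hax : ∀ x, op a x = op c0 x - op e x := fun x => by
    rw [← hae, op_add, add_sub_cancel_right]
  refine ⟨op a, hcomm a ha, fun x hx => ?_, fun x => ?_⟩
  · rw [hax, hc3 x hx, he.2.2 x hx, sub_zero]
  · rw [hax]
    exact sub_mem (hc2 x) (he.2.1 x)

include h in
/-- **The strong form of the Tate conjecture for `X × X` implies semisimplicity.** -/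
theorem semisimple_of_strong (hSOC : S_SOC) (hP : StrongH W X χ ρ) :
    ∃ Δ0 : Subgroup Γ, Δ0.FiniteIndex ∧ SemisimpleH (rres ρ Δ0) := by
  obtain ⟨Δ0, hΔ0, hfix⟩ := exists_fix h
  refine ⟨Δ0, hΔ0, ?_⟩
  intro Δ' hΔ' i U0 hU0 hst
  obtain ⟨U, hUU⟩ : ∃ U : Submodule W.K (W.H X), U = U0 := ⟨_, rfl⟩
  have hU : U ≤ W.gr X i := by
    rw [hUU]
    exact hU0
  obtain ⟨Δ, hΔdef⟩ : ∃ Δ : Subgroup Γ, Δ = Δ'.map Δ0.subtype := ⟨_, rfl⟩
  have hΔ : Δ.FiniteIndex := by
    rw [hΔdef]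
    exact finiteIndex_map Δ0 hΔ0 Δ' hΔ'
  have hle : Δ ≤ Δ0 := by
    rw [hΔdef]
    exact Subgroup.map_subtype_le Δ'
  have hU1 : ∀ g ∈ Δ, ∀ x ∈ U, r0 ρ g x ∈ U := by
    intro g hg x hx
    rw [hΔdef] at hg
    obtain ⟨g', hg', rfl⟩ := hg
    rw [hUU] at hx ⊢
    exact hst g' hg' x hx
  obtain ⟨U', hU', hc⟩ := hSOC W.K (W.H X) {f | ∃ g ∈ Δ, f = r0 ρ g}
    (by
      intro S hS hS'
      obtain ⟨a, ha1, ha2, ha3⟩ := exists_projector h hP hfix hΔ hle (S := S)
        (fun g hg => hS _ ⟨g, hg, rfl⟩) (fun f hf => hS' f (by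
          rintro _ ⟨g, hg, rfl⟩
          exact hf g hg))
      refine ⟨a, ?_, ha2, ha3⟩
      rintro _ ⟨g, hg, rfl⟩
      exact ha1 g hg)
    U (by
      rintro _ ⟨g, hg, rfl⟩
      exact hU1 g hg)
  have k1 : U ⊓ (U' ⊓ W.gr X i) = ⊥ := by
    rw [eq_bot_iff, ← hc.inf_eq_bot]
    exact inf_le_inf_left _ inf_le_left
  have k2 : U ⊔ U' ⊓ W.gr X i = W.gr X i := by
    rw [← sup_inf_assoc_of_le U' hU, hc.sup_eq_top, top_inf_eq]
  rw [hUU] at k1 k2
  refine ⟨(U' ⊓ W.gr X i : Submodule W.K (W.H X)), inf_le_right, fun g hg u hu => ?_, k1, k2⟩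
  have hgΔ : (g : Γ) ∈ Δ := by
    rw [hΔdef]
    exact ⟨g, hg, rfl⟩
  exact ⟨hU' _ ⟨(g : Γ), hgΔ, rfl⟩ u hu.1, r0_gr h (g : Γ) hu.2⟩

end main

end Pool.Agent.E8helper1.TS
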