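import Pool.Agent.E8helper1.TS.Main

/-!
# The strong form of the Tate conjecture for one power
-/

open CategoryTheory AlgebraicGeometry

universe u v

namespace Pool.Agent.E8helper1.TS

open Module
open Pool.Agent.H914 Pool.Agent.H914.VarClass Pool.Agent.H914.VarClass.Obj
  Pool.Agent.H914.WeilCohomology Pool.Agent.H281R3.HT
open Pool.Agent.Y133.Half (Sys PH corrL swap_swap trace_corr_corr)
open Pool.Agent.Y129 (pw pj PowerAction TG tateClasses liftN liftN_pj pw_ext)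
open Pool.Agent.TH125.Gal (IsGaloisAct Intertwines TateAct)
open Pool.Agent.E8helper1.TX

set_option linter.unusedSectionVars false

variable {k : Type u} [Field k] {𝒱 : VarClass k} {ops : CycleOps 𝒱}
  {W : WeilCohomology.{u, 0} ops} {X Y Z : 𝒱.Obj} {Γ : Type} [Group Γ] {χ : Γ →* W.Kˣ}
  {ρ : ∀ n, Γ →* (W.H (pw X n) ≃ₐ[W.K] W.H (pw X n))}

/-- **The strong form of the Tate conjecture** in codimension `j` on a power of `X`. -/
def StrongAt (W : WeilCohomology.{u, 0} ops) (X : 𝒱.Obj) (χ : Γ →* W.Kˣ)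
    (ρ : ∀ n, Γ →* (W.H (pw X n) ≃ₐ[W.K] W.H (pw X n))) (n j : ℕ) : Prop :=
  ∀ Δ : Subgroup Γ, Δ.FiniteIndex → ∀ E F : Submodule W.K (W.H (pw X n)), E ≤ F →
    F ≤ W.gr (pw X n) (2 * j) → (∀ g ∈ Δ, ∀ x ∈ E, ρ n g x ∈ E) →
    (∀ g ∈ Δ, ∀ x ∈ F, ρ n g x - (χ g : W.K) ^ j • x ∈ E) →
    finrank W.K F + finrank W.K (numTriv W (pw X n) j) ≤
      finrank W.K E + finrank W.K (algj W (pw X n) j)

/-- A common subgroup of finite index. -/
theorem exists_common {V : Type} [AddCommGroup V] [Module W.K V] [Module.Finite W.K V]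
    (r : Γ → Module.End W.K V) (c : Γ → W.K) (F : Submodule W.K V)
    (hF : ∀ x ∈ F, ∃ Δ : Subgroup Γ, Δ.FiniteIndex ∧ ∀ g ∈ Δ, r g x = c g • x) :
    ∃ Δ : Subgroup Γ, Δ.FiniteIndex ∧ ∀ g ∈ Δ, ∀ x ∈ F, r g x = c g • x := by
  classical
  let b := Module.finBasis W.K F
  choose D hD1 hD2 using fun i => hF (b i) (b i).2
  refine ⟨⨅ i, D i, Subgroup.finiteIndex_iInf hD1, fun g hg x hx => ?_⟩
  have h1 : x = ∑ i, b.repr ⟨x, hx⟩ i • (b i : V) := by
    have h2 := congrArg (F.subtype) (b.sum_repr ⟨x, hx⟩)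
    rw [map_sum] at h2
    exact h2.symm
  rw [h1, map_sum, Finset.smul_sum]
  refine Finset.sum_congr rfl fun i _ => ?_
  rw [map_smul, hD2 i g (Subgroup.mem_iInf.1 hg i), smul_comm]

section tate

variable (h : PowerAction W X χ ρ)

include h in
theorem alg_fix (n j : ℕ) {c : W.H (pw X n)} (hc : c ∈ algj W (pw X n) j) :
    ∃ Δ : Subgroup Γ, Δ.FiniteIndex ∧ ∀ g ∈ Δ, ρ n g c = (χ g : W.K) ^ j • c := by
  induction hc using Submodule.span_induction with
  | mem c hc => exact (h.galois n).cl_fix j c hc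
  | zero => exact ⟨⊤, inferInstance, fun g _ => by rw [map_zero, smul_zero]⟩
  | add c c' _ _ h1 h2 =>
    obtain ⟨Δ, hΔ, h1⟩ := h1
    obtain ⟨Δ', hΔ', h2⟩ := h2
    exact ⟨Δ ⊓ Δ', inferInstance, fun g hg => by
      rw [map_add, h1 g hg.1, h2 g hg.2, smul_add]⟩
  | smul a c _ h1 =>
    obtain ⟨Δ, hΔ, h1⟩ := h1
    exact ⟨Δ, hΔ, fun g hg => by rw [map_smul, h1 g hg, smul_comm]⟩

include h in
/-- The strong form implies the Tate conjecture. -/
theorem tate_of_strong {n : ℕ} (hS : ∀ j, StrongAt W X χ ρ n j) :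
    TG W X χ ρ n ≤ algSpan W (pw X n) := by
  refine iSup_le fun j => ?_
  have hAT : algj W (pw X n) j ≤ tateClasses χ (W.gr (pw X n)) (ρ n) j := fun c hc =>
    ⟨algj_gr hc, alg_fix h n j hc⟩
  obtain ⟨Δ, hΔ, h1⟩ := exists_common (W := W)
    (fun g => (ρ n g : W.H (pw X n) ≃ₐ[W.K] W.H (pw X n)).toLinearMap)
    (fun g => (χ g : W.K) ^ j) (tateClasses χ (W.gr (pw X n)) (ρ n) j) (fun x hx => hx.2)
  have h2 := hS j Δ hΔ ⊥ (tateClasses χ (W.gr (pw X n)) (ρ n) j) bot_le (fun x hx => hx.1)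
    (fun g _ x hx => by
      rw [Submodule.mem_bot] at hx ⊢
      rw [hx, map_zero])
    (fun g hg x hx => by
      rw [Submodule.mem_bot]
      exact sub_eq_zero.2 (h1 g hg x hx))
  rw [finrank_bot] at h2
  have h3 := Submodule.eq_of_le_of_finrank_le hAT (by omega)
  rw [← h3]
  refine Submodule.span_le.2 ?_
  rintro _ ⟨z, hz, rfl⟩
  exact Submodule.subset_span (Set.mem_iUnion.2 ⟨j, z, hz, rfl⟩)

end tate

section down

theorem algj_map (f : Y ⟶ Z) {j : ℕ} {c : W.H Z} (hc : c ∈ algj W Z j) :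
    W.map f c ∈ algj W Y j := by
  induction hc using Submodule.span_induction with
  | mem c hc =>
    obtain ⟨z, hz, rfl⟩ := hc
    exact Submodule.subset_span ⟨ops.pull f z, ops.pull_mem f hz, W.cl_pull f z⟩
  | zero => rw [map_zero]; exact zero_mem _
  | add c c' _ _ h1 h2 => rw [map_add]; exact add_mem h1 h2
  | smul a c _ h1 => rw [map_smul]; exact Submodule.smul_mem _ _ h1

theorem numTriv_map (f : Y ⟶ Z) {j : ℕ} (hj : j ≤ Z.dim) (hd : Z.dim ≤ Y.dim) {c : W.H Z}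
    (hc : c ∈ numTriv W Z j) : W.map f c ∈ numTriv W Y j := by
  refine ⟨algj_map f hc.1, ?_⟩
  rintro _ ⟨z, hz, rfl⟩
  have h1 : W.map f c * W.cl Y z = W.cl Y z * W.map f c := (W.even_comm (W.cl_mem hz) _).symm
  rw [h1, ← W.tr_push, ← W.cl_push]
  have h2 : Z.IsCyc (Z.dim - j) (ops.push f z) := ops.push_mem f hz (by omega)
  have h3 : W.cl Z (ops.push f z) * c = c * W.cl Z (ops.push f z) := W.even_comm (W.cl_mem h2) c
  rw [h3]
  exact hc.2 _ ⟨_, h2, rfl⟩

variable (h : PowerAction W X χ ρ)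

include h in
/-- The strong form for `X × X` in the middle codimension. -/
theorem strong_two {n : ℕ} (hn : 1 ≤ n) (hS : StrongAt W X χ ρ n X.dim) : StrongH W X χ ρ := by
  intro Δ hΔ E F hEF hF hE hFE
  let p : pw X n ⟶ pw X 1 := liftN X 1 (fun i => pj X n (Fin.castLE (by omega) i))
  let σ : pw X 1 ⟶ pw X n := liftN X n (fun i =>
    if hi : (i : ℕ) < 1 + 1 then pj X 1 ⟨i, hi⟩ else pj X 1 0)
  have h1 : σ ≫ p = 𝟙 _ := by
    apply pw_ext
    intro i
    rw [Category.assoc, liftN_pj, liftN_pj, Category.id_comp]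
    have h2 : ((Fin.castLE (by omega : 1 + 1 ≤ n + 1) i : Fin (n + 1)) : ℕ) < 1 + 1 := i.2
    rw [dif_pos h2]
    congr 1
  have hσp : ∀ c : W.H (pw X 1), W.map σ (W.map p c) = c := fun c => by
    rw [← W.map_comp, h1, W.map_id]
  have hp : Intertwines (W.map p) (ρ 1) (ρ n) :=
    h.equiv p (fun i => Fin.castLE (by omega) i) fun i => liftN_pj _ _ _
  let P : W.H (pw X 1) →ₗ[W.K] W.H (pw X n) := (W.map p).toLinearMap
  let Q : W.H (pw X n) →ₗ[W.K] W.H (pw X 1) := (W.map σ).toLinearMap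
  have hQP : ∀ c, Q (P c) = c := hσp
  have hPinj : Function.Injective P := Function.LeftInverse.injective hQP
  obtain ⟨Δ0, hΔ0, hfix⟩ := exists_common (W := W)
    (fun g => (ρ n g : W.H (pw X n) ≃ₐ[W.K] W.H (pw X n)).toLinearMap)
    (fun g => (χ g : W.K) ^ X.dim) (algj W (pw X n) X.dim) (fun x hx => alg_fix h n X.dim hx)
  let E1 : Submodule W.K (W.H (pw X 1)) := E
  let F1 : Submodule W.K (W.H (pw X 1)) := F
  let B : Submodule W.K (W.H (pw X n)) := algj W (pw X n) X.dim ⊓ LinearMap.ker Q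
  have hdisj : ∀ S : Submodule W.K (W.H (pw X 1)), S.map P ⊓ B = ⊥ := by
    intro S
    rw [eq_bot_iff]
    rintro x ⟨⟨y, -, rfl⟩, -, hy⟩
    have hy' : Q (P y) = 0 := hy
    rw [hQP] at hy'
    rw [Submodule.mem_bot, hy', map_zero]
  have hfr : ∀ S : Submodule W.K (W.H (pw X 1)), finrank W.K (S.map P) = finrank W.K S :=
    fun S => (Submodule.equivMapOfInjective P hPinj S).finrank_eq.symm
  have hsum : ∀ S : Submodule W.K (W.H (pw X 1)),
      finrank W.K (S.map P ⊔ B : Submodule W.K (W.H (pw X n))) =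
        finrank W.K S + finrank W.K B := by
    intro S
    have h2 := Submodule.finrank_sup_add_finrank_inf_eq (S.map P) B
    rw [hdisj, finrank_bot, hfr] at h2
    omega
  have hstr := hS (Δ ⊓ Δ0) inferInstance (E1.map P) (F1.map P ⊔ B)
    ((Submodule.map_mono hEF).trans le_sup_left)
    (by
      refine sup_le ?_ ?_
      · rintro _ ⟨y, hy, rfl⟩
        exact W.map_mem p (hF hy)
      · intro x hx
        exact algj_gr hx.1)
    (by
      rintro g hg _ ⟨y, hy, rfl⟩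
      refine ⟨ρ 1 g y, hE g hg.1 y hy, (hp g y).symm⟩)
    (by
      intro g hg x hx
      obtain ⟨_, ⟨y, hy, rfl⟩, z, hz, rfl⟩ := Submodule.mem_sup.1 hx
      have h2 : ρ n g z = (χ g : W.K) ^ X.dim • z := hfix g hg.2 z hz.1
      have h3 : ρ n g (P y) = P (ρ 1 g y) := hp g y
      refine ⟨ρ 1 g y - (χ g : W.K) ^ X.dim • y, hFE g hg.1 y hy, ?_⟩
      rw [map_add, h2, h3, map_sub, map_smul, smul_add, add_sub_add_right_eq_sub])
  have hA : algj W (pw X n) X.dim ≤ (algj W (pw X 1) X.dim).map P ⊔ B := by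
    intro c hc
    have h2 : c = P (Q c) + (c - P (Q c)) := by abel
    have hQc : Q c ∈ algj W (pw X 1) X.dim := algj_map σ hc
    rw [h2]
    refine Submodule.add_mem_sup ⟨Q c, hQc, rfl⟩ ⟨sub_mem hc (algj_map p hQc), ?_⟩
    change Q (c - P (Q c)) = 0
    rw [map_sub, hQP, sub_self]
  have hN : (numTriv W (pw X 1) X.dim).map P ≤ numTriv W (pw X n) X.dim := by
    rintro _ ⟨c, hc, rfl⟩
    have e1 : (pw X 1).dim = X.dim + X.dim := rfl
    refine numTriv_map p (by rw [e1]; omega) ?_ hc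
    rw [Pool.Agent.Y129.dim_pw, Pool.Agent.Y129.dim_pw]
    exact Nat.mul_le_mul_right _ (by omega)
  have k1 := hsum F1
  have k2 := hfr E1
  have k3 := Submodule.finrank_mono hA
  rw [hsum] at k3
  have k4 := Submodule.finrank_mono hN
  rw [hfr] at k4
  rw [k1, k2] at hstr
  change finrank W.K F1 + finrank W.K (numTriv W (pw X 1) X.dim) ≤
    finrank W.K E1 + finrank W.K (algj W (pw X 1) X.dim)
  omega

end down

end Pool.Agent.E8helper1.TS
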